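import Pool.Agent.Helper28.NF.Stmts
import Pool.Agent.Helper53.BO.S2

/-!
# Module N7 (log determinants) of the dimension free Beck-Fiala theorem
-/

namespace Pool.Agent.Helper68.NF

open Finset Matrix Pool.Agent.Helper28.NF Pool.Agent.Helper53.BO Helper81.BO
open Pool.Agent.Helper50.BO hiding LD
open scoped Classical

variable {ι κ : Type} [Fintype ι] [Fintype κ]

/-- indicator vector of the sets containing `u` -/
noncomputable def iv (S : κ → Finset ι) (u : ι) (j : κ) : ℝ := if u ∈ S j then 1 else 0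

/-- scaled indicator vector -/
noncomputable def sv (S : κ → Finset ι) (w : ι → ℝ) (v : ι) (j : κ) : ℝ := √(w v) * iv S v j

omit [Fintype ι] [Fintype κ] in
theorem iv_mul (S : κ → Finset ι) (u : ι) (i j : κ) :
    iv S u i * iv S u j = if u ∈ S i ∧ u ∈ S j then 1 else 0 := by
  unfold iv
  by_cases h1 : u ∈ S i <;> by_cases h2 : u ∈ S j <;> simp [h1, h2]

theorem gm_eq (S : κ → Finset ι) (R : κ → ℝ) (w : ι → ℝ) (hw : ∀ v, 0 ≤ w v) :
    GM S R w = Matrix.diagonal R + Gm (sv S w) univ := by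
  ext i j
  rw [Matrix.add_apply]
  unfold GM Gm
  rw [Matrix.sum_apply, Matrix.diagonal_apply]
  congr 1
  refine Finset.sum_congr rfl fun v _ => ?_
  rw [Matrix.vecMulVec_apply]
  unfold sv
  have h1 : √(w v) * iv S v i * (√(w v) * iv S v j) = (√(w v) * √(w v)) * (iv S v i * iv S v j) := by
    ring
  rw [h1, Real.mul_self_sqrt (hw v), iv_mul]
  split_ifs <;> simp

theorem ld_eq (S : κ → Finset ι) (R : κ → ℝ) (w : ι → ℝ) (hw : ∀ v, 0 ≤ w v) :
    LD S R w = FF (sv S w) R univ := by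
  unfold LD FF
  rw [gm_eq S R w hw]

theorem gm_pd (S : κ → Finset ι) (R : κ → ℝ) (w : ι → ℝ) (hR : ∀ j, 0 < R j)
    (hw : ∀ v, 0 ≤ w v) : (GM S R w).PosDef := by
  rw [gm_eq S R w hw]
  exact pd_gm _ R hR univ

theorem lev_eq (S : κ → Finset ι) (R : κ → ℝ) (w : ι → ℝ) (u : ι) :
    lev S R w u = lv (GM S R w) (iv S u) := by
  unfold lev lv
  simp only [dotProduct, Matrix.mulVec, Finset.mul_sum]
  refine Finset.sum_congr rfl fun i _ => Finset.sum_congr rfl fun j _ => ?_
  have h1 : iv S u i * ((GM S R w)⁻¹ i j * iv S u j)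
      = (GM S R w)⁻¹ i j * (iv S u i * iv S u j) := by ring
  rw [h1, iv_mul]
  split_ifs <;> simp

theorem lev_nonneg (S : κ → Finset ι) (R : κ → ℝ) (w : ι → ℝ) (hR : ∀ j, 0 < R j)
    (hw : ∀ v, 0 ≤ w v) (u : ι) : 0 ≤ lev S R w u := by
  rw [lev_eq]
  exact lv_nonneg (gm_pd S R w hR hw) _

/-- quadratic form -/
theorem gm_quad (S : κ → Finset ι) (R : κ → ℝ) (w : ι → ℝ) (hw : ∀ v, 0 ≤ w v) (x : κ → ℝ) :
    x ⬝ᵥ (GM S R w *ᵥ x) = ∑ j, R j * x j ^ 2 + ∑ v, w v * (iv S v ⬝ᵥ x) ^ 2 := by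
  rw [gm_eq S R w hw, Matrix.add_mulVec, dotProduct_add, quad_gm]
  congr 1
  · simp only [dotProduct, Matrix.mulVec_diagonal]
    exact Finset.sum_congr rfl fun j _ => by ring
  · refine Finset.sum_congr rfl fun v _ => ?_
    have h1 : sv S w v ⬝ᵥ x = √(w v) * (iv S v ⬝ᵥ x) := by
      simp only [dotProduct, sv, Finset.mul_sum]
      exact Finset.sum_congr rfl fun j _ => by ring
    rw [h1, mul_pow, Real.sq_sqrt (hw v)]

omit [Fintype κ] in
theorem gm_update (S : κ → Finset ι) (R : κ → ℝ) (w : ι → ℝ) (u : ι) {c : ℝ} (hc : 0 ≤ c) :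
    GM S R (Function.update w u (w u + c)) = GM S R w + (1 : ℝ) • oo (fun j => √c * iv S u j) := by
  ext i j
  rw [Matrix.add_apply]
  unfold GM
  rw [add_assoc]
  congr 1
  have h1 : ∀ v, (if v ∈ S i ∧ v ∈ S j then Function.update w u (w u + c) v else 0)
      = (if v ∈ S i ∧ v ∈ S j then w v else 0)
        + (if v = u then (if u ∈ S i ∧ u ∈ S j then c else 0) else 0) := by
    intro v
    by_cases hv : v = u
    · subst hv
      rw [Function.update_self, if_pos rfl]
      split_ifs <;> simp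
    · rw [Function.update_of_ne hv, if_neg hv, add_zero]
  simp only [h1]
  rw [Finset.sum_add_distrib, Finset.sum_ite_eq' univ u, if_pos (Finset.mem_univ u), one_smul]
  congr 1
  unfold oo
  rw [Matrix.vecMulVec_apply]
  have h2 : √c * iv S u i * (√c * iv S u j) = (√c * √c) * (iv S u i * iv S u j) := by ring
  rw [h2, Real.mul_self_sqrt hc, iv_mul]
  split_ifs <;> simp

theorem lv_scale (M : Matrix κ κ ℝ) (a : κ → ℝ) (s : ℝ) :
    lv M (fun j => s * a j) = s ^ 2 * lv M a := by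
  unfold lv
  simp only [dotProduct, Matrix.mulVec, Finset.mul_sum]
  refine Finset.sum_congr rfl fun i _ => Finset.sum_congr rfl fun j _ => ?_
  ring

theorem ld_update (S : κ → Finset ι) (R : κ → ℝ) (w : ι → ℝ) (hR : ∀ j, 0 < R j)
    (hw : ∀ v, 0 ≤ w v) (u : ι) {c : ℝ} (hc : 0 ≤ c) :
    LD S R (Function.update w u (w u + c)) = LD S R w + Real.log (1 + c * lev S R w u) := by
  have hM := gm_pd S R w hR hw
  have hl := lev_nonneg S R w hR hw u
  unfold LD
  rw [gm_update S R w u hc, det_oo hM, lv_scale, Real.sq_sqrt hc, ← lev_eq,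
    Real.log_mul hM.det_pos.ne' (by positivity)]
  ring

/-- the leverage of an element of weight `c` is at most `1 / c` -/
theorem lev_le_inv (S : κ → Finset ι) (R : κ → ℝ) (w : ι → ℝ) (hR : ∀ j, 0 < R j)
    (hw : ∀ v, 0 ≤ w v) (u : ι) (hu : 0 < w u) : lev S R w u ≤ 1 / w u := by
  have hM := gm_pd S R w hR hw
  have hl := lev_nonneg S R w hR hw u
  set x : κ → ℝ := (GM S R w)⁻¹ *ᵥ iv S u with hx
  have h1 : x ⬝ᵥ (GM S R w *ᵥ x) = lev S R w u := by
    rw [hx, Matrix.mulVec_mulVec, mul_inv_pd hM, Matrix.one_mulVec, dotProduct_comm, lev_eq]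
    rfl
  have h2 : iv S u ⬝ᵥ x = lev S R w u := by rw [lev_eq]; rfl
  have h3 := gm_quad S R w hw x
  rw [h1] at h3
  have h4 : w u * (iv S u ⬝ᵥ x) ^ 2 ≤ ∑ v, w v * (iv S v ⬝ᵥ x) ^ 2 :=
    Finset.single_le_sum (f := fun v => w v * (iv S v ⬝ᵥ x) ^ 2)
      (fun v _ => mul_nonneg (hw v) (sq_nonneg _)) (Finset.mem_univ u)
  have h5 : 0 ≤ ∑ j, R j * x j ^ 2 :=
    Finset.sum_nonneg fun j _ => mul_nonneg (hR j).le (sq_nonneg _)
  rw [h2] at h4
  have h6 : w u * lev S R w u ^ 2 ≤ lev S R w u := by linarith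
  rw [le_div_iff₀ hu]
  rcases hl.eq_or_lt with h0 | h0
  · rw [← h0]; simp
  · have h7 : lev S R w u * (w u * lev S R w u) ≤ lev S R w u * 1 := by nlinarith
    have := le_of_mul_le_mul_left h7 h0
    linarith

theorem lev_compare (S : κ → Finset ι) (R : κ → ℝ) (w w' : ι → ℝ) (hR : ∀ j, 0 < R j)
    (hw : ∀ v, 0 ≤ w v) {c : ℝ} (hc : 0 < c) (hc1 : c ≤ 1) (h : ∀ v, c * w v ≤ w' v) (u : ι) :
    lev S R w' u ≤ lev S R w u / c := by
  have hw' : ∀ v, 0 ≤ w' v := fun v => (mul_nonneg hc.le (hw v)).trans (h v)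
  have hM := gm_pd S R w hR hw
  have hM' := gm_pd S R w' hR hw'
  have hl' := lev_nonneg S R w' hR hw' u
  have hl := lev_nonneg S R w hR hw u
  set x : κ → ℝ := (GM S R w')⁻¹ *ᵥ iv S u with hx
  have h1 : x ⬝ᵥ (GM S R w' *ᵥ x) = lev S R w' u := by
    rw [hx, Matrix.mulVec_mulVec, mul_inv_pd hM', Matrix.one_mulVec, dotProduct_comm, lev_eq]
    rfl
  have h2 : iv S u ⬝ᵥ x = lev S R w' u := by rw [lev_eq]; rfl
  have h3 : c * (x ⬝ᵥ (GM S R w *ᵥ x)) ≤ x ⬝ᵥ (GM S R w' *ᵥ x) := by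
    rw [gm_quad S R w hw, gm_quad S R w' hw', mul_add, Finset.mul_sum, Finset.mul_sum]
    refine add_le_add (Finset.sum_le_sum fun j _ => ?_) (Finset.sum_le_sum fun v _ => ?_)
    · have h4 : 0 ≤ R j * x j ^ 2 := mul_nonneg (hR j).le (sq_nonneg _)
      nlinarith
    · rw [← mul_assoc]
      exact mul_le_mul_of_nonneg_right (h v) (sq_nonneg _)
  have h4 := cs_inv hM (iv S u) x
  have h5 : iv S u ⬝ᵥ ((GM S R w)⁻¹ *ᵥ iv S u) = lev S R w u := by rw [lev_eq]; rfl
  rw [h2, h5] at h4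
  rw [h1] at h3
  rw [le_div_iff₀ hc]
  rcases hl'.eq_or_lt with h0 | h0
  · rw [← h0, zero_mul]; exact hl
  · have h6 : lev S R w' u * (lev S R w' u * c) ≤ lev S R w' u * lev S R w u := by
      have h7 := mul_le_mul_of_nonneg_left h3 hl
      nlinarith
    exact le_of_mul_le_mul_left h6 h0

theorem st_LD : ST_LD := by
  intro ι κ _ _ S R w hR hw
  refine ⟨lev_nonneg S R w hR hw, fun u c hc => ld_update S R w hR hw u hc, fun u c hc hcu => ?_,
    fun R' hR' hRR => ?_, ?_, fun w' c u hc h hc1 => lev_compare S R w w' hR hw hc hc1 h u⟩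
  · set w' := Function.update w u c with hw'
    have hw'0 : ∀ v, 0 ≤ w' v := by
      intro v
      rw [hw']
      by_cases hv : v = u
      · rw [hv, Function.update_self]; exact hc.le
      · rw [Function.update_of_ne hv]; exact hw v
    have hu : w' u = c := by rw [hw', Function.update_self]
    have e : w = Function.update w' u (w' u + (w u - c)) := by
      funext v
      by_cases hv : v = u
      · rw [hv, Function.update_self, hu]; ring
      · rw [Function.update_of_ne hv, hw', Function.update_of_ne hv]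
    have h1 := ld_update S R w' hR hw'0 u (c := w u - c) (by linarith)
    rw [← e] at h1
    rw [h1]
    have h2 := lev_nonneg S R w' hR hw'0 u
    have h3 := lev_le_inv S R w' hR hw'0 u (by rw [hu]; exact hc)
    rw [hu] at h3
    have h4 : (w u - c) * lev S R w' u ≤ (w u - c) * (1 / c) :=
      mul_le_mul_of_nonneg_left h3 (by linarith)
    have h5 : 1 + (w u - c) * (1 / c) = w u / c := by field_simp; ring
    have h6 : 0 ≤ (w u - c) * lev S R w' u := mul_nonneg (by linarith) h2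
    have h7 : Real.log (1 + (w u - c) * lev S R w' u) ≤ Real.log (w u / c) :=
      Real.log_le_log (by linarith) (by linarith)
    linarith
  · rw [ld_eq S R w hw, ld_eq S R' w hw]
    exact ff_ridge _ R R' hR' hRR univ
  · rw [ld_eq S R w hw]
    refine (s2c_proof ι κ (sv S w) R univ hR).trans (le_of_eq ?_)
    refine Finset.sum_congr rfl fun j _ => ?_
    congr 3
    have h1 : ∀ v, sv S w v j ^ 2 = if v ∈ S j then w v else 0 := by
      intro v
      unfold sv iv
      rw [mul_pow, Real.sq_sqrt (hw v)]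
      split_ifs <;> simp
    simp only [h1]
    rw [Finset.sum_ite_mem, Finset.univ_inter]

end Pool.Agent.Helper68.NF
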