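import Pool.Agent.Helper28.NF.Stmts

/-!
# Module N8 (lower bound of one level) of the dimension free Beck-Fiala theorem
-/

namespace Pool.Agent.Helper68.NF

open Finset Pool.Agent.Helper28.NF
open scoped Classical

variable {ι κ : Type} [Fintype ι] [Fintype κ]

theorem log_le_two_sqrt {x : ℝ} (hx : 0 < x) : Real.log x ≤ 2 * √x := by
  have h1 : Real.log (√x) ≤ √x - 1 := Real.log_le_sub_one_of_pos (Real.sqrt_pos.2 hx)
  rw [Real.log_sqrt hx.le] at h1
  linarith

/-- double counting -/
theorem sum_nn (S : κ → Finset ι) (k : ι → ℕ) (i t : ℕ)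
    (ht : ∀ v, #(univ.filter (fun j => v ∈ S j)) ≤ t) (f : ι → κ → ℝ) {a : ℝ}
    (hf : ∀ v j, v ∈ S j → i ≤ k v → f v j ≤ a) (ha : 0 ≤ a) :
    ∑ j, ∑ v ∈ (S j).filter (fun v => i ≤ k v), f v j
      ≤ t * (#(univ.filter (fun v => i ≤ k v)) : ℝ) * a := by
  have h1 : ∑ j, ∑ v ∈ (S j).filter (fun v => i ≤ k v), f v j
      = ∑ v ∈ univ.filter (fun v => i ≤ k v), ∑ j ∈ univ.filter (fun j => v ∈ S j), f v j := by
    rw [Finset.sum_comm' (t' := univ.filter fun v => i ≤ k v)
      (s' := fun v => univ.filter fun j => v ∈ S j)]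
    intro x y
    simp only [Finset.mem_univ, true_and, Finset.mem_filter]
  rw [h1]
  calc ∑ v ∈ univ.filter (fun v => i ≤ k v), ∑ j ∈ univ.filter (fun j => v ∈ S j), f v j
      ≤ ∑ _v ∈ univ.filter (fun v => i ≤ k v), t * a := by
        refine Finset.sum_le_sum fun v hv => ?_
        have hv' := (Finset.mem_filter.1 hv).2
        calc ∑ j ∈ univ.filter (fun j => v ∈ S j), f v j
            ≤ ∑ _j ∈ univ.filter (fun j => v ∈ S j), a :=
              Finset.sum_le_sum fun j hj => hf v j (Finset.mem_filter.1 hj).2 hv'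
          _ = #(univ.filter (fun j => v ∈ S j)) * a := by
              rw [Finset.sum_const, nsmul_eq_mul]
          _ ≤ t * a := by
              apply mul_le_mul_of_nonneg_right _ ha
              exact_mod_cast ht v
    _ = _ := by rw [Finset.sum_const, nsmul_eq_mul]; ring

theorem st_LEVLOW (h6 : ST_ZLOW) (h7 : ST_LD) : ST_LEVLOW := by
  intro B hB
  refine ⟨⌈(3200 * (15 + 20 * B)) ^ 2⌉₊, fun M0 hM0 ι κ _ _ S t H k i ht hS hi => ?_⟩
  have hM0r : (3200 * (15 + 20 * B)) ^ 2 ≤ (M0 : ℝ) :=
    (Nat.le_ceil _).trans (by exact_mod_cast hM0)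
  have hsM : 3200 * (15 + 20 * B) ≤ √(M0 : ℝ) := Real.le_sqrt_of_sq_le hM0r
  have hs1 : 1 ≤ √(M0 : ℝ) := by linarith
  have hM0pos : (0 : ℝ) < M0 := by
    have : (0 : ℝ) < (3200 * (15 + 20 * B)) ^ 2 := by positivity
    linarith
  have hsq : √(M0 : ℝ) ^ 2 = M0 := Real.sq_sqrt hM0pos.le
  have hM1 : 1 ≤ (M0 : ℝ) := by nlinarith
  have htr : (1 : ℝ) ≤ t := by exact_mod_cast ht
  have ht0 : (0 : ℝ) < t := by linarith
  set m : ℝ := (M0 : ℝ) * (t : ℝ) ^ 2 with hm
  have hm0 : 0 < m := by positivity
  have hsm : √m = √(M0 : ℝ) * t := by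
    rw [hm, Real.sqrt_mul hM0pos.le, Real.sqrt_sq ht0.le]
  have hM9 : 9 ≤ (M0 : ℝ) := by
    have : (9 : ℝ) ≤ (3200 * (15 + 20 * B)) ^ 2 := by nlinarith
    linarith
  have hm9 : 9 ≤ m := by
    have : 1 ≤ (t : ℝ) ^ 2 := one_le_pow₀ htr
    rw [hm]; nlinarith
  set n : κ → ℝ := fun j => (nn S k i j : ℝ) with hn
  have hn0 : ∀ j, 0 ≤ n j := fun j => Nat.cast_nonneg _
  set Vi : ℝ := (#(univ.filter (fun v => i ≤ k v)) : ℝ) with hVi
  have hVi0 : 0 ≤ Vi := Nat.cast_nonneg _
  set G : Finset κ := univ.filter fun j => m < n j with hG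
  have hGm : ∀ j, j ∈ G ↔ m < n j := fun j => by rw [hG, Finset.mem_filter]; simp
  have hprof0 : ∀ j, 0 < prof m (n j) := by
    intro j
    unfold prof
    split_ifs with h
    · exact one_pos
    · have : 0 < n j := by linarith [not_le.1 h]
      positivity
  have hL0 : ∀ j, 0 < LL S t m k i j := by
    intro j
    have := hprof0 j
    unfold LL
    have h2 : prof m (nn S k i j) = prof m (n j) := rfl
    rw [h2]
    positivity
  have hR0 : ∀ j, 0 < RR S t B m k i j := by
    intro j
    have := hprof0 j
    unfold RR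
    have h2 : prof m (nn S k i j) = prof m (n j) := rfl
    rw [h2]
    positivity
  have hsumn : ∑ j, n j ≤ t * Vi := by
    have h := sum_nn S k i t hS (fun _ _ => (1 : ℝ)) (a := 1) (fun _ _ _ _ => le_refl _) zero_le_one
    rw [mul_one] at h
    refine le_trans (le_of_eq ?_) h
    refine Finset.sum_congr rfl fun j _ => ?_
    simp only [hn, nn]
    rw [Finset.sum_const, nsmul_eq_mul, mul_one]
  -- giants
  have hgi : ∀ j ∈ G, √(n j) ≤ n j / √m := by
    intro j hj
    have h1 : m < n j := (hGm j).1 hj
    have h2 : √m ≤ √(n j) := Real.sqrt_le_sqrt h1.le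
    have h3 : √(n j) * √(n j) = n j := Real.mul_self_sqrt (hn0 j)
    have h4 : 0 < √m := Real.sqrt_pos.2 hm0
    rw [le_div_iff₀ h4]
    calc √(n j) * √m ≤ √(n j) * √(n j) := mul_le_mul_of_nonneg_left h2 (Real.sqrt_nonneg _)
      _ = n j := h3
  have hgsum : ∑ j ∈ G, √(n j) ≤ Vi / √(M0 : ℝ) := by
    have h4 : 0 < √m := Real.sqrt_pos.2 hm0
    calc ∑ j ∈ G, √(n j) ≤ ∑ j ∈ G, n j / √m := Finset.sum_le_sum hgi
      _ ≤ ∑ j, n j / √m := Finset.sum_le_sum_of_subset_of_nonneg (Finset.subset_univ _)
          fun j _ _ => div_nonneg (hn0 j) h4.le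
      _ = (∑ j, n j) / √m := by rw [Finset.sum_div]
      _ ≤ t * Vi / √m := div_le_div_of_nonneg_right hsumn h4.le
      _ = Vi / √(M0 : ℝ) := by
          rw [hsm]
          have : 0 < √(M0 : ℝ) := by linarith
          field_simp
  have hlogn : ∀ j ∈ G, 1 ≤ Real.log (n j) ∧ Real.log (n j) ≤ 2 * √(n j) ∧ 1 ≤ n j := by
    intro j hj
    have h1 : m < n j := (hGm j).1 hj
    refine ⟨?_, log_le_two_sqrt (by linarith), by linarith⟩
    rw [Real.le_log_iff_exp_le (by linarith)]
    have := Real.exp_one_lt_d9
    linarith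
  -- lower bound of the partition function
  have hZ := h6 ι κ S (LL S t m k i) (bb k i) G
    (fun j => if j ∈ G then 1 / √(n j) else 1) hL0 (fun j => by
      split_ifs with h
      · have := (hlogn j h).2.2
        have : 0 < √(n j) := Real.sqrt_pos.2 (by linarith)
        positivity
      · exact one_pos)
  have hA : ∑ v, max (bb k i v) 0 * ∑ j, (if v ∈ S j then (if j ∈ G then
      (if j ∈ G then 1 / √(n j) else 1) ^ 2 else 1 / LL S t m k i j) else 0)
      ≤ Vi * (1 / 6400 + 1 / M0) := by
    have e1 : ∀ v, max (bb k i v) 0 * ∑ j, (if v ∈ S j then (if j ∈ G then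
        (if j ∈ G then 1 / √(n j) else 1) ^ 2 else 1 / LL S t m k i j) else 0)
        ≤ if i ≤ k v then (1 / 6400 + 1 / M0 : ℝ) else 0 := by
      intro v
      have e2 : ∑ j, (if v ∈ S j then (if j ∈ G then
          (if j ∈ G then 1 / √(n j) else 1) ^ 2 else 1 / LL S t m k i j) else 0)
          ≤ 1 / 6400 + 1 / M0 := by
        have e3 : ∀ j, (if v ∈ S j then (if j ∈ G then
            (if j ∈ G then 1 / √(n j) else 1) ^ 2 else 1 / LL S t m k i j) else 0)
            ≤ if v ∈ S j then 1 / (6400 * t) + 1 / m else (0 : ℝ) := by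
          intro j
          by_cases hv : v ∈ S j
          · rw [if_pos hv, if_pos hv]
            by_cases hj : j ∈ G
            · rw [if_pos hj, if_pos hj, div_pow, one_pow, Real.sq_sqrt (hn0 j)]
              have h1 : m < n j := (hGm j).1 hj
              have h2 : 1 / n j ≤ 1 / m := one_div_le_one_div_of_le hm0 h1.le
              have h3 : (0 : ℝ) < 1 / (6400 * t) := by positivity
              linarith
            · rw [if_neg hj]
              have h1 : n j ≤ m := not_lt.1 (fun h => hj ((hGm j).2 h))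
              have h2 : LL S t m k i j = 6400 * t := by
                unfold LL prof
                rw [if_pos h1, mul_one]
              rw [h2]
              have h3 : (0 : ℝ) < 1 / m := by positivity
              linarith
          · rw [if_neg hv, if_neg hv]
        calc _ ≤ ∑ j, (if v ∈ S j then 1 / (6400 * t) + 1 / m else (0 : ℝ)) :=
              Finset.sum_le_sum fun j _ => e3 j
          _ = #(univ.filter (fun j => v ∈ S j)) * (1 / (6400 * t) + 1 / m) := by
              rw [← Finset.sum_filter, Finset.sum_const, nsmul_eq_mul]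
          _ ≤ t * (1 / (6400 * t) + 1 / m) := by
              apply mul_le_mul_of_nonneg_right _ (by positivity)
              exact_mod_cast hS v
          _ = 1 / 6400 + t / m := by field_simp
          _ ≤ 1 / 6400 + 1 / M0 := by
              have : (t : ℝ) / m ≤ 1 / M0 := by
                rw [hm, div_le_div_iff₀ (by positivity) hM0pos]
                nlinarith [mul_pos hM0pos ht0]
              linarith
      have e4 : 0 ≤ ∑ j, (if v ∈ S j then (if j ∈ G then
          (if j ∈ G then 1 / √(n j) else 1) ^ 2 else 1 / LL S t m k i j) else 0) := by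
        refine Finset.sum_nonneg fun j _ => ?_
        split_ifs
        · positivity
        · exact (one_div_pos.2 (hL0 j)).le
        · exact le_refl _
      by_cases hv : i ≤ k v
      · rw [if_pos hv]
        have e5 : max (bb k i v) 0 ≤ 1 := by
          unfold bb
          rw [if_pos hv]
          exact max_le (pow_le_one₀ (by norm_num) (by norm_num)) zero_le_one
        calc _ ≤ 1 * ∑ j, (if v ∈ S j then (if j ∈ G then
              (if j ∈ G then 1 / √(n j) else 1) ^ 2 else 1 / LL S t m k i j) else 0) :=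
              mul_le_mul_of_nonneg_right e5 e4
          _ ≤ _ := by rw [one_mul]; exact e2
      · rw [if_neg hv]
        have e5 : max (bb k i v) 0 = 0 := by
          unfold bb
          rw [if_neg hv]
          apply max_eq_right
          split_ifs <;> norm_num
        rw [e5, zero_mul]
    calc _ ≤ ∑ v, (if i ≤ k v then (1 / 6400 + 1 / M0 : ℝ) else 0) :=
          Finset.sum_le_sum fun v _ => e1 v
      _ = Vi * (1 / 6400 + 1 / M0) := by
          rw [← Finset.sum_filter, Finset.sum_const, nsmul_eq_mul]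
  have hBs : ∑ j ∈ G, (2 + max 0 (-Real.log (√(LL S t m k i j)
      * (if j ∈ G then 1 / √(n j) else 1)))) ≤ 14 * (Vi / √(M0 : ℝ)) := by
    have e1 : ∀ j ∈ G, 2 + max 0 (-Real.log (√(LL S t m k i j)
        * (if j ∈ G then 1 / √(n j) else 1))) ≤ 14 * √(n j) := by
      intro j hj
      obtain ⟨g1, g2, g3⟩ := hlogn j hj
      have h1 : m < n j := (hGm j).1 hj
      have hn1 : 0 < n j := by linarith
      have hLe : LL S t m k i j = 6400 * t * (m / n j) ^ 8 := by
        unfold LL prof
        rw [if_neg (not_le.2 h1)]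
      have e2 : Real.log (√(LL S t m k i j) * (if j ∈ G then 1 / √(n j) else 1))
          = 1 / 2 * (Real.log (6400 * t) + 8 * (Real.log m - Real.log (n j)))
            - 1 / 2 * Real.log (n j) := by
        rw [if_pos hj, Real.log_mul (Real.sqrt_pos.2 (hL0 j)).ne'
          (one_div_pos.2 (Real.sqrt_pos.2 hn1)).ne', Real.log_sqrt (hL0 j).le, one_div,
          Real.log_inv, Real.log_sqrt hn1.le, hLe, Real.log_mul (by positivity) (by positivity),
          Real.log_pow, Real.log_div hm0.ne' hn1.ne']
        push_cast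
        ring
      have e3 : 0 ≤ Real.log (6400 * t) := Real.log_nonneg (by linarith)
      have e4 : 0 ≤ Real.log m := Real.log_nonneg (by linarith)
      have e5 : max 0 (-Real.log (√(LL S t m k i j) * (if j ∈ G then 1 / √(n j) else 1)))
          ≤ 5 * Real.log (n j) := by
        rw [e2]
        apply max_le
        · linarith
        · linarith
      linarith
    calc _ ≤ ∑ j ∈ G, 14 * √(n j) := Finset.sum_le_sum e1
      _ = 14 * ∑ j ∈ G, √(n j) := by rw [Finset.mul_sum]
      _ ≤ _ := mul_le_mul_of_nonneg_left hgsum (by norm_num)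
  -- upper bound of the log determinant
  have hw0 : ∀ v, 0 ≤ ww H k i v := by
    intro v
    unfold ww
    split_ifs
    · positivity
    · exact le_refl _
  have hw1 : ∀ v, ww H k i v ≤ if i ≤ k v then 1 else 0 := by
    intro v
    unfold ww
    split_ifs
    · exact pow_le_one₀ (by norm_num) (by norm_num)
    · exact le_refl _
  have hLDb := (h7 ι κ S (RR S t B m k i) (ww H k i) hR0 hw0).2.2.2.2.1
  have hLDs : ∑ j, Real.log (1 + (∑ v ∈ S j, ww H k i v) / RR S t B m k i j)
      ≤ Vi / (6400 * B) + 20 * (Vi / √(M0 : ℝ)) := by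
    have e0 : ∀ j, ∑ v ∈ S j, ww H k i v ≤ n j := by
      intro j
      calc ∑ v ∈ S j, ww H k i v ≤ ∑ v ∈ S j, (if i ≤ k v then (1 : ℝ) else 0) :=
            Finset.sum_le_sum fun v _ => hw1 v
        _ = n j := by
            rw [← Finset.sum_filter, Finset.sum_const, nsmul_eq_mul, mul_one]
            rfl
    have e1 : ∀ j, Real.log (1 + (∑ v ∈ S j, ww H k i v) / RR S t B m k i j)
        ≤ n j / (6400 * B * t) + if j ∈ G then 20 * √(n j) else 0 := by
      intro j
      have f0 : 0 ≤ (∑ v ∈ S j, ww H k i v) / RR S t B m k i j :=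
        div_nonneg (Finset.sum_nonneg fun v _ => hw0 v) (hR0 j).le
      have f1 : (∑ v ∈ S j, ww H k i v) / RR S t B m k i j ≤ n j / RR S t B m k i j :=
        div_le_div_of_nonneg_right (e0 j) (hR0 j).le
      have f2 : Real.log (1 + (∑ v ∈ S j, ww H k i v) / RR S t B m k i j)
          ≤ Real.log (1 + n j / RR S t B m k i j) :=
        Real.log_le_log (by linarith) (by linarith)
      have f3 : 0 ≤ n j / (6400 * B * t) := div_nonneg (hn0 j) (by positivity)
      by_cases hj : j ∈ G
      · rw [if_pos hj]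
        obtain ⟨g1, g2, g3⟩ := hlogn j hj
        have h1 : m < n j := (hGm j).1 hj
        have hn1 : 0 < n j := by linarith
        have hRe : RR S t B m k i j = 6400 * B * t * (m / n j) ^ 8 := by
          unfold RR prof
          rw [if_neg (not_le.2 h1)]
        have f4 : 1 + n j / RR S t B m k i j ≤ 2 * n j ^ 9 := by
          have f5 : n j / RR S t B m k i j ≤ n j ^ 9 := by
            rw [hRe, div_le_iff₀ (by positivity)]
            have f6 : n j ^ 9 * (6400 * B * t * (m / n j) ^ 8)
                = n j * (6400 * B * t * m ^ 8) := by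
              field_simp
            rw [f6]
            have f7 : 1 ≤ 6400 * B * t * m ^ 8 := by
              have a1 : 1 ≤ m ^ 8 := one_le_pow₀ (by linarith)
              have a2 : 1 ≤ B * t := by nlinarith
              nlinarith
            nlinarith
          have f8 : 1 ≤ n j ^ 9 := one_le_pow₀ g3
          linarith
        have f9 : Real.log (1 + n j / RR S t B m k i j) ≤ Real.log 2 + 9 * Real.log (n j) := by
          have f10 : 0 ≤ n j / RR S t B m k i j := div_nonneg (hn0 j) (hR0 j).le
          refine (Real.log_le_log (by linarith) f4).trans (le_of_eq ?_)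
          rw [Real.log_mul (by norm_num) (by positivity), Real.log_pow]
          push_cast
          ring
        have f11 : Real.log 2 ≤ 1 := by
          have := Real.log_two_lt_d9
          linarith
        linarith
      · rw [if_neg hj, add_zero]
        have h1 : n j ≤ m := not_lt.1 (fun h => hj ((hGm j).2 h))
        have hRe : RR S t B m k i j = 6400 * B * t := by
          unfold RR prof
          rw [if_pos h1, mul_one]
        refine f2.trans ?_
        rw [hRe]
        have := Real.log_le_sub_one_of_pos (show 0 < 1 + n j / (6400 * B * t) by linarith)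
        linarith
    calc _ ≤ ∑ j, (n j / (6400 * B * t) + if j ∈ G then 20 * √(n j) else 0) :=
          Finset.sum_le_sum fun j _ => e1 j
      _ = (∑ j, n j) / (6400 * B * t) + 20 * ∑ j ∈ G, √(n j) := by
          rw [Finset.sum_add_distrib, Finset.sum_div, Finset.sum_ite_mem, Finset.univ_inter,
            Finset.mul_sum]
      _ ≤ t * Vi / (6400 * B * t) + 20 * (Vi / √(M0 : ℝ)) := by
          gcongr
      _ = _ := by
          have : (t : ℝ) * Vi / (6400 * B * t) = Vi / (6400 * B) := by field_simp
          rw [this]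
  have hB0 : 0 < B := by linarith
  have hLDf : B * LD S (RR S t B m k i) (ww H k i) ≤ Vi / 6400 + 20 * B * (Vi / √(M0 : ℝ)) := by
    calc B * LD S (RR S t B m k i) (ww H k i)
        ≤ B * (Vi / (6400 * B) + 20 * (Vi / √(M0 : ℝ))) :=
          mul_le_mul_of_nonneg_left (hLDb.trans hLDs) hB0.le
      _ = _ := by field_simp
  have hfin : Vi * (1 / M0) + (14 + 20 * B) * (Vi / √(M0 : ℝ)) ≤ Vi * (1 / 3200) := by
    have hs0 : 0 < √(M0 : ℝ) := by linarith
    have a1 : (1 : ℝ) / M0 ≤ 1 / √(M0 : ℝ) := by
      apply one_div_le_one_div_of_le hs0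
      nlinarith
    have a2 : (15 + 20 * B) * (1 / √(M0 : ℝ)) ≤ 1 / 3200 := by
      rw [mul_one_div, div_le_div_iff₀ hs0 (by norm_num)]
      linarith
    calc Vi * (1 / M0) + (14 + 20 * B) * (Vi / √(M0 : ℝ))
        ≤ Vi * (1 / √(M0 : ℝ)) + (14 + 20 * B) * (Vi / √(M0 : ℝ)) := by
          have := mul_le_mul_of_nonneg_left a1 hVi0
          linarith
      _ = Vi * ((15 + 20 * B) * (1 / √(M0 : ℝ))) := by ring
      _ ≤ _ := mul_le_mul_of_nonneg_left a2 hVi0
  linarith

end Pool.Agent.Helper68.NF
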